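import Mathlib

namespace Pool.Agent.Results.MP_0132f6_co.TwoSquare
open Finset

/-- 3-term progressions `(a, a+d, a+2d)`, `d ≥ 1`, inside the index set `0, …, n-1`,
recorded as pairs `(a, d)`. -/
def prog (n : ℕ) : Finset (ℕ × ℕ) :=
  (range n ×ˢ range n).filter (fun p => 1 ≤ p.2 ∧ p.1 + 2 * p.2 < n)

/-- the sequence `x 0, …, x (n-1)` is proportional: each of the eight types occurs on exactly
one eighth of the progressions. -/
def Proportional (n : ℕ) (x : ℕ → Bool) : Prop :=
  ∀ u v w : Bool, 8 * ((prog n).filter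
    (fun p => x p.1 = u ∧ x (p.1 + p.2) = v ∧ x (p.1 + 2 * p.2) = w)).card = (prog n).card

def sgn (b : Bool) : ℤ := if b then 1 else -1

lemma avg {n : ℕ} {x : ℕ → Bool} (h : Proportional n x) (g : Bool → Bool → ℤ)
    (hg : g true true + g true false + g false true + g false false = 0) :
    ∑ p ∈ prog n, g (x p.1) (x (p.1 + 2 * p.2)) = 0 := by
  have e : ∀ p : ℕ × ℕ, g (x p.1) (x (p.1 + 2 * p.2)) = ∑ u : Bool, ∑ v : Bool, ∑ w : Bool,
      g u w * (if x p.1 = u ∧ x (p.1 + p.2) = v ∧ x (p.1 + 2 * p.2) = w then 1 else 0) := by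
    intro p
    cases x p.1 <;> cases x (p.1 + p.2) <;> cases x (p.1 + 2 * p.2) <;> simp
  have c : ∀ u v w : Bool, 8 * ∑ p ∈ prog n,
      (if x p.1 = u ∧ x (p.1 + p.2) = v ∧ x (p.1 + 2 * p.2) = w then (1:ℤ) else 0)
        = (prog n).card := by
    intro u v w
    have := h u v w
    rw [Finset.card_filter] at this
    exact_mod_cast this
  rw [Finset.sum_congr rfl fun p _ => e p]
  simp only [Fintype.sum_bool, Finset.sum_add_distrib, ← Finset.mul_sum]
  have a1 := c true true true
  have a2 := c true true false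
  have a3 := c true false true
  have a4 := c true false false
  have a5 := c false true true
  have a6 := c false true false
  have a7 := c false false true
  have a8 := c false false false
  apply mul_left_cancel₀ (show (8:ℤ) ≠ 0 by norm_num)
  linear_combination g true true * (a1 + a3) + g true false * (a2 + a4)
    + g false true * (a5 + a7) + g false false * (a6 + a8) + 2 * ((prog n).card : ℤ) * hg

lemma conv (n : ℕ) (f : ℕ → ℕ → ℤ) : ∑ p ∈ prog n, f p.1 (p.1 + 2 * p.2)
    = ∑ j ∈ range n, ∑ i ∈ range j, if i % 2 = j % 2 then f i j else 0 := by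
  simp_rw [← Finset.sum_filter]
  rw [Finset.sum_sigma']
  refine Finset.sum_nbij' (fun p => ⟨p.1 + 2 * p.2, p.1⟩) (fun q => (q.2, (q.1 - q.2) / 2))
    ?_ ?_ ?_ ?_ ?_
  · intro p hp
    simp [prog] at hp ⊢
    omega
  · intro q hq
    simp [prog] at hq ⊢
    omega
  · intro p hp
    simp
  · rintro ⟨j, i⟩ hq
    simp at hq ⊢
    omega
  · intro p hp
    rfl

def S (y : ℕ → ℤ) (r n : ℕ) : ℤ := ∑ i ∈ range n, if i % 2 = r then y i else 0

lemma quad (y : ℕ → ℤ) (hy : ∀ i, y i * y i = 1) (n : ℕ) :
    2 * (∑ j ∈ range n, ∑ i ∈ range j, if i % 2 = j % 2 then y i * y j else 0)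
      = S y 0 n ^ 2 + S y 1 n ^ 2 - n := by
  induction n with
  | zero => simp [S]
  | succ n ih =>
    rw [Finset.sum_range_succ, mul_add, ih]
    have e : (∑ i ∈ range n, if i % 2 = n % 2 then y i * y n else 0) = S y (n % 2) n * y n := by
      rw [S, Finset.sum_mul]
      exact Finset.sum_congr rfl fun i _ => by split_ifs <;> simp
    rw [e]
    simp only [S, Finset.sum_range_succ]
    rcases Nat.mod_two_eq_zero_or_one n with h | h <;> simp only [h] <;> push_cast <;>
      linear_combination (-1) * hy n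

lemma cnt (n : ℕ) : S (fun _ => 1) 0 n = ((n + 1) / 2 : ℕ) ∧ S (fun _ => 1) 1 n = (n / 2 : ℕ) := by
  induction n with
  | zero => simp [S]
  | succ n ih =>
    simp only [S, Finset.sum_range_succ] at ih ⊢
    rw [ih.1, ih.2]
    constructor <;> split_ifs <;> omega

lemma lin (y : ℕ → ℤ) (n : ℕ) :
    (∑ j ∈ range n, ∑ i ∈ range j, if i % 2 = j % 2 then y i + y j else 0)
      = (S (fun _ => 1) 0 n - 1) * S y 0 n + (S (fun _ => 1) 1 n - 1) * S y 1 n := by
  induction n with
  | zero => simp [S]
  | succ n ih =>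
    rw [Finset.sum_range_succ, ih]
    have e : (∑ i ∈ range n, if i % 2 = n % 2 then y i + y n else 0)
        = S y (n % 2) n + S (fun _ => 1) (n % 2) n * y n := by
      rw [S, S, Finset.sum_mul, ← Finset.sum_add_distrib]
      exact Finset.sum_congr rfl fun i _ => by split_ifs <;> simp
    rw [e]
    simp only [S, Finset.sum_range_succ]
    rcases Nat.mod_two_eq_zero_or_one n with h | h <;> simp only [h] <;>
      simp only [if_true, if_false, zero_ne_one, one_ne_zero] <;> ring

lemma main : ∀ (n : ℕ) (x : ℕ → Bool), 3 ≤ n → Proportional n x → ∃ s : ℕ, n = 2 * s ^ 2 := by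
  intro n x hn h
  have hy : ∀ i, sgn (x i) * sgn (x i) = 1 := fun i => by cases x i <;> simp [sgn]
  have q1 := avg h (fun u w => sgn u * sgn w) (by simp [sgn])
  have q2 := avg h (fun u w => sgn u + sgn w) (by simp [sgn])
  rw [conv n (fun i j => sgn (x i) * sgn (x j))] at q1
  rw [conv n (fun i j => sgn (x i) + sgn (x j))] at q2
  have r1 := quad (fun i => sgn (x i)) hy n
  have r2 := lin (fun i => sgn (x i)) n
  rw [q1] at r1
  rw [q2, (cnt n).1, (cnt n).2] at r2
  generalize S (fun i => sgn (x i)) 0 n = A at r1 r2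
  generalize S (fun i => sgn (x i)) 1 n = B at r1 r2
  obtain ⟨m, rfl | rfl⟩ := Nat.even_or_odd' n
  · rw [show (2 * m + 1) / 2 = m by omega, show 2 * m / 2 = m by omega] at r2
    have hm : (m : ℤ) - 1 ≠ 0 := by omega
    have : A + B = 0 := by
      apply mul_left_cancel₀ hm; linear_combination (-1) * r2
    refine ⟨A.natAbs, ?_⟩
    have hB : B = -A := by linarith
    subst hB
    zify
    rw [sq_abs]
    push_cast at r1
    linear_combination r1
  · exfalso
    rw [show (2 * m + 1 + 1) / 2 = m + 1 by omega, show (2 * m + 1) / 2 = m by omega] at r2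
    push_cast at r1 r2
    by_cases h3 : 3 ≤ m
    · have hm : (3:ℤ) ≤ m := by exact_mod_cast h3
      have hB : B = m * (A + B) := by linear_combination r2
      have hA : A = (1 - m) * (A + B) := by linear_combination (-1) * r2
      generalize A + B = T at hA hB
      subst hA hB
      by_cases hT : T = 0
      · subst hT; simp at r1; omega
      · have : 1 ≤ T ^ 2 := by have := sq_pos_of_ne_zero hT; omega
        nlinarith [mul_le_mul_of_nonneg_left this (show (0:ℤ) ≤ (1 - m) ^ 2 + m ^ 2 by positivity)]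
    · have h8 := h true true true
      obtain rfl | rfl : m = 1 ∨ m = 2 := by omega
      · have : (prog (2 * 1 + 1)).card = 1 := by decide
        omega
      · have : (prog (2 * 2 + 1)).card = 4 := by decide
        omega

theorem result : ∀ (n : ℕ) (x : ℕ → Bool), 3 ≤ n → Proportional n x →
    ∃ s : ℕ, n = 2 * s ^ 2 ∧ (s % 2 = 1 ∨ 4 ∣ s) := by
  intro n x hn h
  obtain ⟨s, rfl⟩ := main n x hn h
  refine ⟨s, rfl, ?_⟩
  have h8 := h true true true
  have c := conv (2 * s ^ 2) (fun _ _ => 1 + 1)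
  have l := lin (fun _ => 1) (2 * s ^ 2)
  rw [← c, (cnt _).1, (cnt _).2, show (2 * s ^ 2 + 1) / 2 = s ^ 2 by omega,
    show 2 * s ^ 2 / 2 = s ^ 2 by omega, Finset.sum_const, ← h8] at l
  generalize Finset.card _ = k at l
  have hs : s % 2 = 1 ∨ s % 4 = 0 ∨ s % 4 = 2 := by omega
  rcases hs with hs | hs | hs
  · exact Or.inl hs
  · exact Or.inr (Nat.dvd_of_mod_eq_zero hs)
  · exfalso
    obtain ⟨t, rfl⟩ : ∃ t, s = 4 * t + 2 := ⟨s / 4, by omega⟩
    simp only [nsmul_eq_mul] at l
    push_cast at l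
    have : (16 * k : ℤ) = 16 * (32 * t ^ 4 + 64 * t ^ 3 + 46 * t ^ 2 + 14 * t + 1) + 8 := by
      linear_combination l
    omega

end Pool.Agent.Results.MP_0132f6_co.TwoSquare
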